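import Pool.Agent.LSC.Dnf

set_option autoImplicit false

/-!
# Asymptotics for the class with narrow DNFs
-/

namespace Pool.Agent.LSC

theorem oneSided_floor (n : ℕ) {c s : ℝ} (hc : 0 ≤ c) (hs : 0 ≤ s) :
    OneSided n c s = OneSided n (⌊c⌋₊ : ℝ) (⌊s⌋₊ : ℝ) := by
  ext f
  simp only [OneSided, DnfWidth, Set.mem_ofPred_eq, Nat.cast_le]
  simp only [Nat.le_floor_iff hc, Nat.le_floor_iff hs]

theorem poly_le (K ε : ℝ) (hK : 0 ≤ K) (hε : 0 < ε) :
    ∃ L₀ : ℝ, 1 ≤ L₀ ∧ ∀ L, L₀ ≤ L → K * (L * (L + 2)) + 1 ≤ (2 : ℝ) ^ (ε * L) := by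
  set a : ℝ := ε * Real.log 2 / 3 with ha
  have hlog : 0 < Real.log 2 := Real.log_pos (by norm_num)
  have ha0 : 0 < a := by positivity
  refine ⟨max 1 ((3 * K + 1) / a ^ 3), le_max_left _ _, fun L hL => ?_⟩
  have hL1 : 1 ≤ L := (le_max_left _ _).trans hL
  have hL2 : (3 * K + 1) / a ^ 3 ≤ L := (le_max_right _ _).trans hL
  have hL3 : 3 * K + 1 ≤ L * a ^ 3 := by
    rw [div_le_iff₀ (by positivity)] at hL2
    exact hL2
  have h1 : (2 : ℝ) ^ (ε * L) = Real.exp (a * L) ^ 3 := by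
    rw [← Real.exp_nat_mul, Real.rpow_def_of_pos (by norm_num)]
    congr 1
    rw [ha]
    push_cast
    ring
  have h2 : a * L ≤ Real.exp (a * L) := (le_add_of_nonneg_right zero_le_one).trans
    (Real.add_one_le_exp _)
  have h3 : (a * L) ^ 3 ≤ Real.exp (a * L) ^ 3 := pow_le_pow_left₀ (by positivity) h2 3
  rw [h1]
  refine le_trans ?_ h3
  calc K * (L * (L + 2)) + 1 ≤ (3 * K + 1) * L ^ 2 := by nlinarith [mul_nonneg hK (sub_nonneg.2 hL1)]
    _ ≤ (L * a ^ 3) * L ^ 2 := mul_le_mul_of_nonneg_right hL3 (by positivity)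
    _ = (a * L) ^ 3 := by ring

theorem oneSided_log (n c s : ℕ) : Real.logb 2 ((OneSided n c s).ncard : ℝ) ≤
    2 ^ (c + s) * (c * Real.logb 2 (2 * n + 1) + 1) := by
  have h1 := oneSided_card n c s
  have hb : 0 ≤ Real.logb 2 (2 * (n : ℝ) + 1) := Real.logb_nonneg (by norm_num) (by
    have : (0 : ℝ) ≤ n := Nat.cast_nonneg n
    linarith)
  rcases Nat.eq_zero_or_pos (OneSided n (c : ℝ) (s : ℝ)).ncard with h0 | h0
  · rw [h0, Nat.cast_zero, Real.logb_zero]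
    positivity
  · have h2 : ((OneSided n (c : ℝ) (s : ℝ)).ncard : ℝ) ≤
        (2 * (2 * (n : ℝ) + 1) ^ c) ^ (2 ^ (c + s)) := by
      have h3 : ((2 * n + 1) ^ c + 1) ^ (2 ^ (c + s)) ≤ (2 * (2 * n + 1) ^ c) ^ (2 ^ (c + s)) := by
        refine Nat.pow_le_pow_left ?_ _
        have : 1 ≤ (2 * n + 1) ^ c := Nat.one_le_pow _ _ (by omega)
        omega
      exact_mod_cast h1.trans h3
    calc Real.logb 2 ((OneSided n (c : ℝ) (s : ℝ)).ncard : ℝ)
        ≤ Real.logb 2 ((2 * (2 * (n : ℝ) + 1) ^ c) ^ (2 ^ (c + s))) :=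
          Real.logb_le_logb_of_le (by norm_num) (by exact_mod_cast h0) h2
      _ = 2 ^ (c + s) * (c * Real.logb 2 (2 * n + 1) + 1) := by
        rw [Real.logb_pow, Real.logb_mul (by norm_num) (by positivity), Real.logb_pow,
          Real.logb_self_eq_one (by norm_num)]
        push_cast
        ring

/-- The class with narrow DNFs. -/
theorem oneSided_asym (K M ε : ℝ) (hK : 0 ≤ K) (hM : 0 ≤ M) (hε : 0 < ε) :
    ∃ n₀ : ℕ, ∀ n : ℕ, n₀ ≤ n →
      Real.logb 2 ((OneSided n (K * Real.logb 2 n) (M * Real.logb 2 n)).ncard : ℝ) ≤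
        (n : ℝ) ^ (K + M + ε) := by
  obtain ⟨L₀, hL₀1, hL₀⟩ := poly_le K ε hK hε
  refine ⟨⌈(2 : ℝ) ^ L₀⌉₊, fun n hn => ?_⟩
  have hn1 : (2 : ℝ) ^ L₀ ≤ n := (Nat.le_ceil _).trans (by exact_mod_cast hn)
  have hn0 : (0 : ℝ) < n := lt_of_lt_of_le (by positivity) hn1
  set L := Real.logb 2 (n : ℝ) with hL
  have hLL : L₀ ≤ L := by
    rw [hL, Real.le_logb_iff_rpow_le (by norm_num) hn0]
    exact hn1
  have hL1 : 1 ≤ L := hL₀1.trans hLL
  have hL0 : 0 < L := by linarith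
  have hnL : (n : ℝ) = (2 : ℝ) ^ L := by
    rw [hL, Real.rpow_logb (by norm_num) (by norm_num) hn0]
  have h1n : (1 : ℝ) ≤ n := by
    rw [hnL]
    exact Real.one_le_rpow (by norm_num) hL0.le
  have hc := Nat.floor_le (a := K * L) (by positivity)
  have hs := Nat.floor_le (a := M * L) (by positivity)
  rw [oneSided_floor n (by positivity : 0 ≤ K * L) (by positivity : 0 ≤ M * L)]
  set c := ⌊K * L⌋₊
  set s := ⌊M * L⌋₊
  refine (oneSided_log n c s).trans ?_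
  have h1 : (2 : ℝ) ^ (c + s) ≤ (n : ℝ) ^ (K + M) := by
    rw [hnL, ← Real.rpow_mul (by norm_num), ← Real.rpow_natCast]
    refine Real.rpow_le_rpow_of_exponent_le (by norm_num) ?_
    push_cast
    nlinarith
  have h2 : Real.logb 2 (2 * (n : ℝ) + 1) ≤ L + 2 := by
    have h3 : 2 * (n : ℝ) + 1 ≤ (2 : ℝ) ^ (L + 2) := by
      rw [Real.rpow_add (by norm_num), ← hnL]
      have : (2 : ℝ) ^ (2 : ℝ) = 4 := by norm_num
      rw [this]
      linarith
    calc Real.logb 2 (2 * (n : ℝ) + 1) ≤ Real.logb 2 ((2 : ℝ) ^ (L + 2)) :=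
          Real.logb_le_logb_of_le (by norm_num) (by positivity) h3
      _ = L + 2 := Real.logb_rpow (by norm_num) (by norm_num)
  have hb : 0 ≤ Real.logb 2 (2 * (n : ℝ) + 1) := Real.logb_nonneg (by norm_num) (by linarith)
  have h3 : (c : ℝ) * Real.logb 2 (2 * n + 1) + 1 ≤ (n : ℝ) ^ ε := by
    calc (c : ℝ) * Real.logb 2 (2 * n + 1) + 1 ≤ (K * L) * (L + 2) + 1 := by
          have := mul_le_mul hc h2 hb (by positivity)
          linarith
      _ = K * (L * (L + 2)) + 1 := by ring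
      _ ≤ (2 : ℝ) ^ (ε * L) := hL₀ L hLL
      _ = (n : ℝ) ^ ε := by rw [hnL, ← Real.rpow_mul (by norm_num), mul_comm]
  calc (2 : ℝ) ^ (c + s) * (c * Real.logb 2 (2 * n + 1) + 1) ≤ (n : ℝ) ^ (K + M) * (n : ℝ) ^ ε :=
        mul_le_mul h1 h3 (by positivity) (by positivity)
    _ = (n : ℝ) ^ (K + M + ε) := (Real.rpow_add hn0 _ _).symm

end Pool.Agent.LSC
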