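import Mathlib

set_option autoImplicit false

/-!
# Boolean functions of low sensitivity: definitions and basic lemmas
-/

namespace Pool.Agent.LSC

/-- The cube `{0,1}^n`. -/
abbrev Cube (n : ℕ) := Fin n → Bool

/-- The point `x` with coordinate `i` flipped. -/
def flip {n : ℕ} (x : Cube n) (i : Fin n) : Cube n := Function.update x i (!(x i))

/-- The sensitivity of `f` at `x`. -/
def sensAt {n : ℕ} (f : Cube n → Bool) (x : Cube n) : ℕ :=
  (Finset.univ.filter fun i => f (flip x i) ≠ f x).card

/-- The functions `f : {0,1}^n → {0,1}` with sensitivity at most `s`. -/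
def Low (n : ℕ) (s : ℝ) : Set (Cube n → Bool) := {f | ∀ x, (sensAt f x : ℝ) ≤ s}

/-- `x` with the coordinates in `S` flipped. -/
def tog {n : ℕ} (x : Cube n) (S : Finset (Fin n)) : Cube n :=
  fun i => if i ∈ S then !(x i) else x i

theorem flip_eq {n : ℕ} (x : Cube n) (i : Fin n) : flip x i = tog x {i} := by
  ext j
  unfold flip tog
  by_cases h : j = i
  · subst h; simp
  · simp [h]

theorem tog_empty {n : ℕ} (x : Cube n) : tog x ∅ = x := by
  ext i; simp [tog]

theorem tog_tog {n : ℕ} (x : Cube n) (S T : Finset (Fin n)) :
    tog (tog x S) T = tog x (symmDiff S T) := by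
  ext i
  unfold tog
  by_cases hS : i ∈ S <;> by_cases hT : i ∈ T <;> simp [hS, hT, Finset.mem_symmDiff]

theorem tog_self {n : ℕ} (x : Cube n) (S : Finset (Fin n)) : tog (tog x S) S = x := by
  rw [tog_tog, symmDiff_self]; exact tog_empty x

theorem tog_sdiff {n : ℕ} (x : Cube n) {S W : Finset (Fin n)} (h : W ⊆ S) :
    tog (tog x S) W = tog x (S \ W) := by
  rw [tog_tog]
  congr 1
  ext i
  rw [Finset.mem_symmDiff, Finset.mem_sdiff]
  constructor
  · rintro (h1 | h1)
    · exact h1
    · exact absurd (h h1.1) h1.2
  · intro h1; exact Or.inl h1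

/-- Number of subsets of bounded size. -/
theorem card_small {α : Type*} [Fintype α] [DecidableEq α] (k : ℕ) :
    (Finset.univ.filter fun S : Finset α => S.card ≤ k).card ≤ (Fintype.card α + 1) ^ k := by
  classical
  have h : (Finset.univ.filter fun S : Finset α => S.card ≤ k) ⊆
      (Finset.univ : Finset (Fin k → Option α)).image
        (fun h => Finset.univ.filter fun a => ∃ j, h j = some a) := by
    intro S hS
    rw [Finset.mem_filter] at hS
    rw [Finset.mem_image]
    refine ⟨fun j => S.toList[(j : ℕ)]?, Finset.mem_univ _, ?_⟩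
    ext a
    rw [Finset.mem_filter]
    constructor
    · rintro ⟨-, j, hj⟩
      exact Finset.mem_toList.1 (List.mem_of_getElem? hj)
    · intro ha
      refine ⟨Finset.mem_univ _, ?_⟩
      obtain ⟨i, hi⟩ := List.mem_iff_getElem?.1 (Finset.mem_toList.2 ha)
      have hlt : i < S.toList.length := by
        by_contra hge
        rw [List.getElem?_eq_none (not_lt.1 hge)] at hi
        exact absurd hi (by simp)
      rw [Finset.length_toList] at hlt
      exact ⟨⟨i, lt_of_lt_of_le hlt hS.2⟩, hi⟩
  calc _ ≤ _ := Finset.card_le_card h
    _ ≤ _ := Finset.card_image_le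
    _ = (Fintype.card α + 1) ^ k := by
      rw [Finset.card_univ, Fintype.card_fun, Fintype.card_option, Fintype.card_fin]

/-- Functions of sensitivity at most `s` which agree on a ball of radius `2 s` are equal. -/
theorem eq_of_ball {n s : ℕ} {f g : Cube n → Bool} (hf : ∀ x, sensAt f x ≤ s)
    (hg : ∀ x, sensAt g x ≤ s) (c : Cube n)
    (h : ∀ S : Finset (Fin n), S.card ≤ 2 * s → f (tog c S) = g (tog c S)) : f = g := by
  classical
  have key : ∀ k : ℕ, ∀ S : Finset (Fin n), S.card = k → f (tog c S) = g (tog c S) := by
    intro k
    induction k using Nat.strong_induction_on with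
    | _ k ih =>
      intro S hS
      by_cases hk : k ≤ 2 * s
      · exact h S (hS ▸ hk)
      · by_contra hne
        have hsub : S ⊆ (Finset.univ.filter fun i => f (flip (tog c S) i) ≠ f (tog c S)) ∪
            (Finset.univ.filter fun i => g (flip (tog c S) i) ≠ g (tog c S)) := by
          intro i hi
          have h1 : flip (tog c S) i = tog c (S \ {i}) := by
            rw [flip_eq, tog_sdiff c (Finset.singleton_subset_iff.2 hi)]
          have h2 : (S \ {i}).card < k := by
            rw [← hS]
            exact Finset.card_lt_card (Finset.sdiff_ssubset (Finset.singleton_subset_iff.2 hi)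
              (Finset.singleton_nonempty i))
          have h3 := ih _ h2 (S \ {i}) rfl
          rw [Finset.mem_union, Finset.mem_filter, Finset.mem_filter, h1]
          by_contra hcon
          push Not at hcon
          have h4 := hcon.1 (Finset.mem_univ _)
          have h5 := hcon.2 (Finset.mem_univ _)
          exact hne (by rw [← h4, ← h5, h3])
        have h6 := Finset.card_le_card hsub
        have h7 := Finset.card_union_le (Finset.univ.filter fun i => f (flip (tog c S) i) ≠ f (tog c S))
          (Finset.univ.filter fun i => g (flip (tog c S) i) ≠ g (tog c S))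
        have h8 : (Finset.univ.filter fun i => f (flip (tog c S) i) ≠ f (tog c S)).card ≤ s := hf _
        have h9 : (Finset.univ.filter fun i => g (flip (tog c S) i) ≠ g (tog c S)).card ≤ s := hg _
        omega
  ext x
  have := key _ (Finset.univ.filter fun i => x i ≠ c i) rfl
  have h1 : tog c (Finset.univ.filter fun i => x i ≠ c i) = x := by
    ext i
    unfold tog
    by_cases hi : x i = c i
    · simp [hi]
    · rw [if_pos (by simp [hi])]
      cases hx : x i <;> cases hc : c i <;> simp_all
  rw [h1] at this
  rw [this]

end Pool.Agent.LSC
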