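import Pool.Agent.LSC.Thick

set_option autoImplicit false

/-!
# Functions with narrow DNFs and low sensitivity at the zeros
-/

namespace Pool.Agent.LSC

/-- `f` is a disjunction of conjunctions of at most `c` literals: every `x` with `f x = 1` lies in
a subcube of codimension at most `c` on which `f = 1`. -/
def DnfWidth {n : ℕ} (f : Cube n → Bool) (c : ℝ) : Prop :=
  ∀ x, f x = true → ∃ S : Finset (Fin n), (S.card : ℝ) ≤ c ∧
    ∀ y, (∀ i ∈ S, y i = x i) → f y = true

/-- The functions with DNF width at most `c` and sensitivity at most `s` at all their zeros. -/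
def OneSided (n : ℕ) (c s : ℝ) : Set (Cube n → Bool) :=
  {f | DnfWidth f c ∧ ∀ x, f x = false → (sensAt f x : ℝ) ≤ s}

/-- the subcube given by a set of literals -/
def sub {n : ℕ} (Q : Finset (Fin n × Bool)) : Set (Cube n) := {y | ∀ q ∈ Q, y q.1 = q.2}

open Classical in
/-- the conjunctions of at most `c` literals which imply `f` -/
noncomputable def impl {n : ℕ} (c : ℕ) (f : Cube n → Bool) : Finset (Finset (Fin n × Bool)) :=
  Finset.univ.filter fun Q => Q.card ≤ c ∧ ∀ y ∈ sub Q, f y = true

/-- `𝒬` determines `f` from below in the class -/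
def Det {n : ℕ} (c s : ℕ) (f : Cube n → Bool) (P : Finset (Finset (Fin n × Bool))) : Prop :=
  ∀ g ∈ OneSided n c s, (∀ Q ∈ P, ∀ y ∈ sub Q, g y = true) → ∀ x, f x = true → g x = true

theorem det_impl {n c s : ℕ} {f : Cube n → Bool} (hf : f ∈ OneSided n c s) :
    Det c s f (impl c f) := by
  classical
  intro g _ hg x hx
  obtain ⟨S, hS, hy⟩ := hf.1 x hx
  have hS' : S.card ≤ c := by exact_mod_cast hS
  refine hg (S.image fun i => (i, x i)) ?_ x ?_
  · rw [impl, Finset.mem_filter]
    refine ⟨Finset.mem_univ _, Finset.card_image_le.trans hS', fun y hyS => hy y fun i hi => ?_⟩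
    exact hyS (i, x i) (Finset.mem_image_of_mem _ hi)
  · intro q hq
    rw [Finset.mem_image] at hq
    obtain ⟨i, -, rfl⟩ := hq
    rfl

/-- A minimal determining family is small. -/
theorem exists_det {n c s : ℕ} {f : Cube n → Bool} (hf : f ∈ OneSided n c s) :
    ∃ P : Finset (Finset (Fin n × Bool)), P ⊆ impl c f ∧ Det c s f P ∧ P.card ≤ 2 ^ (c + s) := by
  classical
  set M := (impl c f).powerset.filter fun P => Det c s f P with hM
  have hMne : M.Nonempty := ⟨impl c f, by
    rw [hM, Finset.mem_filter, Finset.mem_powerset]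
    exact ⟨Finset.Subset.refl _, det_impl hf⟩⟩
  obtain ⟨P, hPM, hPmin⟩ := Finset.exists_min_image M Finset.card hMne
  rw [hM, Finset.mem_filter, Finset.mem_powerset] at hPM
  refine ⟨P, hPM.1, hPM.2, ?_⟩
  -- a function violating exactly one of the constraints
  have hex : ∀ Q ∈ P, ∃ g ∈ OneSided n c s, (∀ Q' ∈ P, Q' ≠ Q → ∀ y ∈ sub Q', g y = true) ∧
      ∃ y ∈ sub Q, g y = false := by
    intro Q hQ
    have h1 : ¬ Det c s f (P.erase Q) := by
      intro hdet
      have h2 : P.erase Q ∈ M := by
        rw [hM, Finset.mem_filter, Finset.mem_powerset]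
        exact ⟨(Finset.erase_subset _ _).trans hPM.1, hdet⟩
      exact absurd (hPmin _ h2) (not_le.2 (Finset.card_erase_lt_of_mem hQ))
    unfold Det at h1
    push Not at h1
    obtain ⟨g, hg, hgP, x, hfx, hgx⟩ := h1
    refine ⟨g, hg, fun Q' hQ' hne y hy => hgP Q' (Finset.mem_erase.2 ⟨hne, hQ'⟩) y hy, ?_⟩
    by_contra hcon
    push Not at hcon
    refine hgx (hPM.2 g hg (fun Q' hQ' y hy => ?_) x hfx)
    by_cases hne : Q' = Q
    · subst hne
      have := hcon y hy
      simpa using this
    · exact hgP Q' (Finset.mem_erase.2 ⟨hne, hQ'⟩) y hy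
  choose! g hg hgP hgQ using hex
  -- the sets where they differ from `f`
  let E : Finset (Fin n × Bool) → Finset (Cube n) := fun Q =>
    Finset.univ.filter fun y => y ∈ sub Q ∧ g Q y = false
  have hcard : ∀ Q ∈ P, 2 ^ n ≤ 2 ^ (c + s) * (E Q).card := by
    intro Q hQ
    obtain ⟨y, hy, hgy⟩ := hgQ Q hQ
    refine thick n (c + s) (E Q) ⟨y, by simp [E, hy, hgy]⟩ fun x hx => ?_
    simp only [E, Finset.mem_filter, Finset.mem_univ, true_and] at hx
    have hsub : (Finset.univ.filter fun i => flip x i ∉ E Q) ⊆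
        (Q.image Prod.fst) ∪ (Finset.univ.filter fun i => g Q (flip x i) ≠ g Q x) := by
      intro i hi
      simp only [E, Finset.mem_filter, Finset.mem_univ, true_and, not_and] at hi
      rw [Finset.mem_union]
      by_cases hiQ : i ∈ Q.image Prod.fst
      · exact Or.inl hiQ
      · right
        rw [Finset.mem_filter]
        refine ⟨Finset.mem_univ _, fun heq => ?_⟩
        refine hi ?_ (heq.trans hx.2)
        intro q hq
        have hne : q.1 ≠ i := fun h => hiQ (Finset.mem_image.2 ⟨q, hq, h⟩)
        unfold flip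
        rw [Function.update_of_ne hne]
        exact hx.1 q hq
    have hQc : Q.card ≤ c := by
      have := hPM.1 hQ
      rw [impl, Finset.mem_filter] at this
      exact this.2.1
    have hsens : (Finset.univ.filter fun i => g Q (flip x i) ≠ g Q x).card ≤ s := by
      have := (hg Q hQ).2 x hx.2
      unfold sensAt at this
      exact_mod_cast this
    calc _ ≤ _ := Finset.card_le_card hsub
      _ ≤ _ := Finset.card_union_le _ _
      _ ≤ c + s := Nat.add_le_add (Finset.card_image_le.trans hQc) hsens
  have hdisj : ∀ Q ∈ P, ∀ Q' ∈ P, Q ≠ Q' → Disjoint (E Q) (E Q') := by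
    intro Q hQ Q' hQ' hne
    rw [Finset.disjoint_left]
    intro x hx hx'
    simp only [E, Finset.mem_filter, Finset.mem_univ, true_and] at hx hx'
    have := hgP Q hQ Q' hQ' (Ne.symm hne) x hx'.1
    rw [hx.2] at this
    exact absurd this (by simp)
  have h1 : P.card * 2 ^ n ≤ 2 ^ (c + s) * 2 ^ n := by
    calc P.card * 2 ^ n = ∑ _Q ∈ P, 2 ^ n := by rw [Finset.sum_const, smul_eq_mul]
      _ ≤ ∑ Q ∈ P, 2 ^ (c + s) * (E Q).card := Finset.sum_le_sum hcard
      _ = 2 ^ (c + s) * (P.biUnion E).card := by
        rw [← Finset.mul_sum, Finset.card_biUnion hdisj]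
      _ ≤ 2 ^ (c + s) * 2 ^ n := by
        refine Nat.mul_le_mul_left _ ?_
        refine (Finset.card_le_univ _).trans ?_
        rw [Fintype.card_fun, Fintype.card_bool, Fintype.card_fin]
  exact Nat.le_of_mul_le_mul_right h1 (by positivity)

/-- The number of functions of DNF width at most `c` and sensitivity at most `s` at the zeros. -/
theorem oneSided_card (n c s : ℕ) :
    (OneSided n c s).ncard ≤ ((2 * n + 1) ^ c + 1) ^ (2 ^ (c + s)) := by
  classical
  let B := {Q : Finset (Fin n × Bool) // Q.card ≤ c}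
  have hB : Fintype.card B ≤ (2 * n + 1) ^ c := by
    have h1 := card_small (α := Fin n × Bool) c
    rw [Fintype.card_prod, Fintype.card_bool, Fintype.card_fin, mul_comm n 2] at h1
    rw [Fintype.card_subtype]
    exact h1
  have hex : ∀ f : Cube n → Bool, ∃ P : Finset (Finset (Fin n × Bool)), f ∈ OneSided n c s →
      P ⊆ impl c f ∧ Det c s f P ∧ P.card ≤ 2 ^ (c + s) := by
    intro f
    by_cases hf : f ∈ OneSided n c s
    · obtain ⟨P, hP⟩ := exists_det hf
      exact ⟨P, fun _ => hP⟩
    · exact ⟨∅, fun h => absurd h hf⟩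
  choose P hP using hex
  let code : (Cube n → Bool) → Finset B := fun f => Finset.univ.filter fun Q => Q.1 ∈ P f
  rw [Set.ncard_eq_toFinset_card']
  have hmaps : ∀ f ∈ (OneSided n c s).toFinset, code f ∈
      (Finset.univ.filter fun t : Finset B => t.card ≤ 2 ^ (c + s)) := by
    intro f hf
    rw [Set.mem_toFinset] at hf
    rw [Finset.mem_filter]
    refine ⟨Finset.mem_univ _, le_trans ?_ (hP f hf).2.2⟩
    refine Finset.card_le_card_of_injOn (fun Q => Q.1) ?_ ?_
    · intro Q hQ
      exact (Finset.mem_filter.1 (Finset.mem_coe.1 hQ)).2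
    · intro Q _ Q' _ h
      exact Subtype.ext h
  have hinj : Set.InjOn code (OneSided n c s).toFinset := by
    intro f hf g hg hfg
    rw [Finset.mem_coe, Set.mem_toFinset] at hf hg
    -- one inequality
    have key : ∀ f g : Cube n → Bool, f ∈ OneSided n c s → g ∈ OneSided n c s →
        code f = code g → ∀ x, f x = true → g x = true := by
      intro f g hf hg hfg x hx
      refine (hP f hf).2.1 g hg (fun Q hQ y hy => ?_) x hx
      have hQc : Q.card ≤ c := by
        have := (hP f hf).1 hQ
        rw [impl, Finset.mem_filter] at this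
        exact this.2.1
      have h1 : (⟨Q, hQc⟩ : B) ∈ code f := Finset.mem_filter.2 ⟨Finset.mem_univ _, hQ⟩
      rw [hfg] at h1
      have h2 := (hP g hg).1 (Finset.mem_filter.1 h1).2
      rw [impl, Finset.mem_filter] at h2
      exact h2.2.2 y hy
    ext x
    cases hfx : f x
    · cases hgx : g x
      · rfl
      · rw [key g f hg hf hfg.symm x hgx] at hfx
        exact hfx.symm
    · exact (key f g hf hg hfg x hfx).symm
  calc _ ≤ _ := Finset.card_le_card_of_injOn code hmaps hinj
    _ ≤ (Fintype.card B + 1) ^ (2 ^ (c + s)) := card_small _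
    _ ≤ _ := Nat.pow_le_pow_left (by omega) _

end Pool.Agent.LSC
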