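import Pool.Agent.LSC.Basic

set_option autoImplicit false

/-!
# Chains of alternating minimal points
-/

namespace Pool.Agent.LSC

variable {n : ℕ}

/-- The end points of the chains of alternating minimal points above `c`. -/
inductive End (f : Cube n → Bool) (c : Cube n) : Finset (Fin n) → Prop
  | base : End f c ∅
  | step {T S : Finset (Fin n)} : End f c T → T ⊂ S → f (tog c S) ≠ f (tog c T) →
      (∀ U, T ⊆ U → U ⊂ S → f (tog c U) = f (tog c T)) → End f c S

/-- The value at a point is the value at any maximal end point below it. -/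
theorem End.decode {f : Cube n → Bool} {c : Cube n} {T Z : Finset (Fin n)} (hT : End f c T)
    (hTZ : T ⊆ Z) (hmax : ∀ T', End f c T' → T ⊂ T' → ¬ T' ⊆ Z) : f (tog c Z) = f (tog c T) := by
  classical
  by_contra hne
  set P := Finset.univ.filter fun U : Finset (Fin n) => T ⊆ U ∧ U ⊆ Z ∧ f (tog c U) ≠ f (tog c T)
    with hP
  have hPne : P.Nonempty := ⟨Z, by simp [hP, hTZ, hne]⟩
  obtain ⟨S, hSP, hSmin⟩ := Finset.exists_min_image P Finset.card hPne
  rw [hP, Finset.mem_filter] at hSP
  obtain ⟨-, hTS, hSZ, hSne⟩ := hSP
  have hss : T ⊂ S := by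
    refine Finset.ssubset_iff_subset_ne.2 ⟨hTS, ?_⟩
    intro h; apply hSne; rw [h]
  refine hmax S (End.step hT hss hSne ?_) hss hSZ
  intro U hTU hUS
  by_contra hU
  have hUP : U ∈ P := by
    rw [hP, Finset.mem_filter]
    exact ⟨Finset.mem_univ _, hTU, hUS.subset.trans hSZ, hU⟩
  exact absurd (hSmin U hUP) (not_le.2 (Finset.card_lt_card hUS))

theorem End.exists_pred {f : Cube n → Bool} {c : Cube n} {S : Finset (Fin n)} (hS : End f c S)
    (hne : S.Nonempty) : ∃ T, End f c T ∧ T ⊂ S ∧ ∀ i ∈ S \ T,
      f (flip (tog c S) i) ≠ f (tog c S) := by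
  classical
  cases hS with
  | base => exact absurd hne Finset.not_nonempty_empty
  | @step T _ hT hTS hne' hU =>
    refine ⟨T, hT, hTS, fun i hi => ?_⟩
    rw [Finset.mem_sdiff] at hi
    have h1 : flip (tog c S) i = tog c (S \ {i}) := by
      rw [flip_eq, tog_sdiff c (Finset.singleton_subset_iff.2 hi.1)]
    rw [h1, hU (S \ {i})]
    · exact fun h => hne' h.symm
    · intro j hj
      rw [Finset.mem_sdiff, Finset.mem_singleton]
      exact ⟨hTS.subset hj, fun h => hi.2 (h ▸ hj)⟩
    · exact Finset.sdiff_ssubset (Finset.singleton_subset_iff.2 hi.1) (Finset.singleton_nonempty i)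

/-- The number of end points of weight `m` which end at `x`. -/
noncomputable def cnt (f : Cube n → Bool) (m : ℕ) (x : Cube n) : ℕ := by
  classical
  exact (Finset.univ.filter fun S : Finset (Fin n) => S.card = m ∧ End f (tog x S) S).card

theorem sum_aux (s m : ℕ) :
    (∑ w ∈ Finset.Icc 1 m, s ^ w * (2 * s) ^ (m - w)) + s ^ m = (2 * s) ^ m := by
  induction m with
  | zero => simp
  | succ m ih =>
    have h1 : ∑ w ∈ Finset.Icc 1 (m + 1), s ^ w * (2 * s) ^ (m + 1 - w) =
        2 * s * (∑ w ∈ Finset.Icc 1 m, s ^ w * (2 * s) ^ (m - w)) + s ^ (m + 1) := by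
      rw [Finset.sum_Icc_succ_top (by omega), Finset.mul_sum]
      congr 1
      · refine Finset.sum_congr rfl fun w hw => ?_
        rw [Finset.mem_Icc] at hw
        have : m + 1 - w = (m - w) + 1 := by omega
        rw [this, pow_succ]; ring
      · simp
    rw [h1, pow_succ (2 * s) m, ← ih]
    ring

theorem cnt_le {s : ℕ} {f : Cube n → Bool} (hf : ∀ x, sensAt f x ≤ s) :
    ∀ (m : ℕ) (x : Cube n), cnt f m x ≤ (2 * s) ^ m := by
  classical
  intro m
  induction m using Nat.strong_induction_on with
  | _ m ih =>
    intro x
    rcases Nat.eq_zero_or_pos m with rfl | hm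
    · have h0 : (Finset.univ.filter fun S : Finset (Fin n) => S.card = 0 ∧ End f (tog x S) S) ⊆
          {∅} := by
        intro S hS
        rw [Finset.mem_filter] at hS
        rw [Finset.mem_singleton]
        exact Finset.card_eq_zero.1 hS.2.1
      have h1 := Finset.card_le_card h0
      rw [Finset.card_singleton] at h1
      simpa [cnt] using h1
    · set Sx := Finset.univ.filter fun i => f (flip x i) ≠ f x with hSx
      have hSxc : Sx.card ≤ s := hf x
      have hsub : (Finset.univ.filter fun S : Finset (Fin n) => S.card = m ∧ End f (tog x S) S) ⊆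
          Sx.powerset.biUnion fun W => if 1 ≤ W.card ∧ W.card ≤ m then
            (Finset.univ.filter fun T : Finset (Fin n) => T.card = m - W.card ∧
              End f (tog (tog x W) T) T).image (fun T => T ∪ W) else ∅ := by
        intro S hS
        rw [Finset.mem_filter] at hS
        obtain ⟨-, hSm, hSE⟩ := hS
        have hne : S.Nonempty := Finset.card_pos.1 (by omega)
        obtain ⟨T, hT, hTS, hsens⟩ := hSE.exists_pred hne
        rw [tog_self] at hsens
        have hWc : (S \ T).card = S.card - T.card := Finset.card_sdiff_of_subset hTS.subset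
        have hlt := Finset.card_lt_card hTS
        rw [Finset.mem_biUnion]
        refine ⟨S \ T, ?_, ?_⟩
        · rw [Finset.mem_powerset]
          intro i hi
          rw [hSx, Finset.mem_filter]
          exact ⟨Finset.mem_univ _, hsens i hi⟩
        · rw [if_pos ⟨by omega, by omega⟩, Finset.mem_image]
          refine ⟨T, ?_, ?_⟩
          · rw [Finset.mem_filter]
            refine ⟨Finset.mem_univ _, by omega, ?_⟩
            have h2 : tog (tog x (S \ T)) T = tog x S := by
              rw [tog_tog]
              congr 1
              ext i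
              rw [Finset.mem_symmDiff, Finset.mem_sdiff]
              constructor
              · rintro (h | h)
                · exact h.1.1
                · exact hTS.subset h.1
              · intro hi
                by_cases hiT : i ∈ T
                · exact Or.inr ⟨hiT, fun h => h.2 hiT⟩
                · exact Or.inl ⟨⟨hi, hiT⟩, hiT⟩
            rw [h2]
            exact hT
          · rw [Finset.union_comm]
            exact Finset.sdiff_union_of_subset hTS.subset
      have h1 : cnt f m x ≤ ∑ W ∈ Sx.powerset,
          (if 1 ≤ W.card ∧ W.card ≤ m then (2 * s) ^ (m - W.card) else 0) := by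
        calc cnt f m x ≤ _ := Finset.card_le_card hsub
          _ ≤ _ := Finset.card_biUnion_le
          _ ≤ _ := by
            refine Finset.sum_le_sum fun W _ => ?_
            split_ifs with hW
            · refine Finset.card_image_le.trans ?_
              exact ih (m - W.card) (by omega) (tog x W)
            · simp
      refine h1.trans ?_
      have h2 : ∑ W ∈ Sx.powerset,
          (if 1 ≤ W.card ∧ W.card ≤ m then (2 * s) ^ (m - W.card) else 0) =
          ∑ w ∈ Finset.range (Sx.card + 1),
            Sx.card.choose w • (if 1 ≤ w ∧ w ≤ m then (2 * s) ^ (m - w) else 0) :=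
        Finset.sum_powerset_apply_card (fun w => if 1 ≤ w ∧ w ≤ m then (2 * s) ^ (m - w) else 0)
      rw [h2]
      calc ∑ w ∈ Finset.range (Sx.card + 1),
            Sx.card.choose w • (if 1 ≤ w ∧ w ≤ m then (2 * s) ^ (m - w) else 0)
          ≤ ∑ w ∈ Finset.Icc 1 m, s ^ w * (2 * s) ^ (m - w) := by
            have h3 : ∀ w, Sx.card.choose w • (if 1 ≤ w ∧ w ≤ m then (2 * s) ^ (m - w) else 0) =
                if 1 ≤ w ∧ w ≤ m then Sx.card.choose w * (2 * s) ^ (m - w) else 0 := by
              intro w
              split_ifs <;> simp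
            simp only [h3]
            rw [← Finset.sum_filter]
            calc ∑ w ∈ (Finset.range (Sx.card + 1)).filter (fun w => 1 ≤ w ∧ w ≤ m),
                  Sx.card.choose w * (2 * s) ^ (m - w)
                ≤ ∑ w ∈ (Finset.range (Sx.card + 1)).filter (fun w => 1 ≤ w ∧ w ≤ m),
                  s ^ w * (2 * s) ^ (m - w) := by
                  refine Finset.sum_le_sum fun w _ => Nat.mul_le_mul_right _ ?_
                  exact (Nat.choose_le_pow _ _).trans (Nat.pow_le_pow_left hSxc _)
              _ ≤ _ := by
                  refine Finset.sum_le_sum_of_subset fun w hw => ?_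
                  rw [Finset.mem_filter] at hw
                  exact Finset.mem_Icc.2 hw.2
        _ ≤ (2 * s) ^ m := by
            have := sum_aux s m
            omega

/-- There is a center with few end points in the ball of radius `k`. -/
theorem exists_center {s : ℕ} {f : Cube n → Bool} (hf : ∀ x, sensAt f x ≤ s) (k : ℕ) :
    ∃ c : Cube n, ∃ E : Finset (Finset (Fin n)), (∀ S, S ∈ E ↔ S.card ≤ k ∧ End f c S) ∧
      E.card ≤ (2 * s + 1) ^ k := by
  classical
  by_contra hcon
  push Not at hcon
  have h1 : ∀ c : Cube n, (2 * s + 1) ^ k + 1 ≤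
      (Finset.univ.filter fun S : Finset (Fin n) => S.card ≤ k ∧ End f c S).card := fun c =>
    hcon c _ (fun S => by simp)
  have h2 : ∑ c : Cube n, (Finset.univ.filter fun S : Finset (Fin n) =>
      S.card ≤ k ∧ End f c S).card =
      ∑ x : Cube n, ∑ m ∈ Finset.range (k + 1), cnt f m x := by
    have h3 : ∀ x : Cube n, ∑ m ∈ Finset.range (k + 1), cnt f m x =
        (Finset.univ.filter fun S : Finset (Fin n) => S.card ≤ k ∧ End f (tog x S) S).card := by
      intro x
      have h4 : (Finset.univ.filter fun S : Finset (Fin n) => S.card ≤ k ∧ End f (tog x S) S) =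
          (Finset.range (k + 1)).biUnion fun m => Finset.univ.filter fun S : Finset (Fin n) =>
            S.card = m ∧ End f (tog x S) S := by
        ext S
        simp only [Finset.mem_filter, Finset.mem_univ, true_and, Finset.mem_biUnion,
          Finset.mem_range]
        constructor
        · rintro ⟨h5, h6⟩
          exact ⟨S.card, by omega, rfl, h6⟩
        · rintro ⟨m, h5, h6, h7⟩
          exact ⟨by omega, h7⟩
      rw [h4, Finset.card_biUnion]
      · rfl
      · intro a _ b _ hab
        rw [Function.onFun, Finset.disjoint_left]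
        intro S hSa hSb
        rw [Finset.mem_filter] at hSa hSb
        exact hab (hSa.2.1.symm.trans hSb.2.1)
    simp only [h3]
    simp only [Finset.card_eq_sum_ones, Finset.sum_filter]
    rw [Finset.sum_comm, Finset.sum_comm (s := Finset.univ (α := Cube n))]
    refine Finset.sum_congr rfl fun S _ => ?_
    refine Finset.sum_nbij' (fun c => tog c S) (fun x => tog x S) (fun _ _ => Finset.mem_univ _)
      (fun _ _ => Finset.mem_univ _) (fun c _ => tog_self c S) (fun c _ => tog_self c S) ?_
    intro c _
    rw [tog_self]
  have h3 : ∑ x : Cube n, ∑ m ∈ Finset.range (k + 1), cnt f m x ≤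
      ∑ _x : Cube n, (2 * s + 1) ^ k := by
    refine Finset.sum_le_sum fun x _ => ?_
    calc ∑ m ∈ Finset.range (k + 1), cnt f m x
        ≤ ∑ m ∈ Finset.range (k + 1), (2 * s) ^ m * 1 ^ (k - m) * k.choose m := by
          refine Finset.sum_le_sum fun m hm => ?_
          rw [Finset.mem_range] at hm
          have := cnt_le hf m x
          have h4 : 1 ≤ k.choose m := Nat.choose_pos (by omega)
          rw [one_pow, mul_one]
          exact this.trans (Nat.le_mul_of_pos_right _ h4)
      _ = (2 * s + 1) ^ k := (add_pow (2 * s) 1 k).symm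
  have h4 : ∑ _x : Cube n, ((2 * s + 1) ^ k + 1) ≤ ∑ _x : Cube n, (2 * s + 1) ^ k := by
    calc _ ≤ _ := Finset.sum_le_sum fun c _ => h1 c
      _ = _ := h2
      _ ≤ _ := h3
  rw [Finset.sum_const, Finset.sum_const, smul_eq_mul, smul_eq_mul] at h4
  have h5 : 0 < (Finset.univ : Finset (Cube n)).card := Finset.card_pos.2 Finset.univ_nonempty
  exact absurd (Nat.le_of_mul_le_mul_left h4 h5) (by omega)

end Pool.Agent.LSC
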