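import Pool.Agent.LSC.Asym

set_option autoImplicit false

/-!
# Monotone functions
-/

namespace Pool.Agent.LSC

/-- The monotone functions with sensitivity at most `s`. -/
def MonoLow (n : ℕ) (s : ℝ) : Set (Cube n → Bool) :=
  {f | Monotone f ∧ ∀ x, (sensAt f x : ℝ) ≤ s}

theorem tle {b : Bool} (h : true ≤ b) : b = true := by
  cases b
  · exact absurd h (by decide)
  · rfl

theorem monoLow_sub (n : ℕ) (s : ℝ) : MonoLow n s ⊆ OneSided n s s := by
  classical
  rintro f ⟨hm, hs⟩
  refine ⟨fun x hx => ?_, fun x _ => hs x⟩
  -- a minimal point below `x`
  set M := Finset.univ.filter fun y : Cube n => y ≤ x ∧ f y = true with hM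
  have hMne : M.Nonempty := ⟨x, by rw [hM, Finset.mem_filter]; exact ⟨Finset.mem_univ _, le_refl _, hx⟩⟩
  obtain ⟨y, hyM, hymin⟩ := Finset.exists_min_image M
    (fun y => (Finset.univ.filter fun i => y i = true).card) hMne
  rw [hM, Finset.mem_filter] at hyM
  obtain ⟨-, hyx, hfy⟩ := hyM
  refine ⟨Finset.univ.filter fun i => y i = true, ?_, ?_⟩
  · refine le_trans ?_ (hs y)
    unfold sensAt
    have hsub : (Finset.univ.filter fun i => y i = true) ⊆
        Finset.univ.filter fun i => f (flip y i) ≠ f y := by
      intro i hi
      rw [Finset.mem_filter] at hi ⊢
      refine ⟨Finset.mem_univ _, fun heq => ?_⟩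
      have hlt : flip y i ≤ y := by
        intro j
        unfold flip
        by_cases hj : j = i
        · subst hj
          rw [Function.update_self, hi.2]
          simp
        · rw [Function.update_of_ne hj]
      have hmem : flip y i ∈ M := by
        rw [hM, Finset.mem_filter]
        exact ⟨Finset.mem_univ _, hlt.trans hyx, heq.trans hfy⟩
      have h1 := hymin _ hmem
      have h2 : (Finset.univ.filter fun j => flip y i j = true) ⊂
          (Finset.univ.filter fun j => y j = true) := by
        rw [Finset.ssubset_iff_of_subset]
        · refine ⟨i, by simp [hi.2], ?_⟩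
          simp [flip, hi.2]
        · intro j hj
          rw [Finset.mem_filter] at hj ⊢
          refine ⟨Finset.mem_univ _, ?_⟩
          have := hlt j
          rw [hj.2] at this
          exact tle this
      exact absurd h1 (not_le.2 (Finset.card_lt_card h2))
    exact_mod_cast Finset.card_le_card hsub
  · intro z hz
    have hyz : y ≤ z := by
      intro i
      cases hyi : y i
      · exact Bool.false_le _
      · have h1 := hyx i
        rw [hyi] at h1
        have h2 : x i = true := tle h1
        have h3 := hz i (by simp [hyi])
        rw [h3, h2]
    have := hm hyz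
    rw [hfy] at this
    exact tle this

/-- the address part -/
def adr {n : ℕ} (k : ℕ) (x : Cube n) : Finset (Fin n) :=
  Finset.univ.filter fun i => (i : ℕ) < 2 * k ∧ x i = true

/-- the functions of the lower bound -/
def mid {n : ℕ} (k : ℕ) (T : Finset (Finset (Fin n))) (x : Cube n) : Bool :=
  decide (k < (adr k x).card ∨ ((adr k x).card = k ∧ adr k x ∈ T))

theorem adr_mono {n k : ℕ} {x y : Cube n} (h : x ≤ y) : adr k x ⊆ adr k y := by
  intro i hi
  unfold adr at hi ⊢
  rw [Finset.mem_filter] at hi ⊢
  refine ⟨Finset.mem_univ _, hi.2.1, ?_⟩
  have := h i
  rw [hi.2.2] at this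
  exact tle this

theorem mid_mono {n k : ℕ} (T : Finset (Finset (Fin n))) : Monotone (mid k T : Cube n → Bool) := by
  intro x y hxy
  have h1 := adr_mono (k := k) hxy
  have h2 := Finset.card_le_card h1
  cases hx : mid k T x
  · exact Bool.false_le _
  · unfold mid at hx
    rw [decide_eq_true_eq] at hx
    have : mid k T y = true := by
      unfold mid
      rw [decide_eq_true_eq]
      rcases hx with h3 | ⟨h3, h4⟩
      · exact Or.inl (lt_of_lt_of_le h3 h2)
      · rcases lt_or_eq_of_le h2 with h5 | h5
        · exact Or.inl (by omega)
        · have h6 : adr k x = adr k y := Finset.eq_of_subset_of_card_le h1 h5.ge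
          exact Or.inr ⟨by omega, h6 ▸ h4⟩
    rw [this]

theorem adr_flip_mem {n k : ℕ} {x : Cube n} {i : Fin n} (hi : i ∈ adr k x) :
    adr k (flip x i) = (adr k x).erase i := by
  unfold adr at hi
  rw [Finset.mem_filter] at hi
  ext j
  rw [Finset.mem_erase]
  unfold adr flip
  rw [Finset.mem_filter, Finset.mem_filter]
  by_cases hj : j = i
  · subst hj
    rw [Function.update_self, hi.2.2]
    simp
  · rw [Function.update_of_ne hj]
    simp [hj]

theorem adr_flip_not {n k : ℕ} {x : Cube n} {i : Fin n} (hi : (i : ℕ) < 2 * k) (hi' : i ∉ adr k x) :
    adr k (flip x i) = insert i (adr k x) := by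
  have hxi : x i = false := by
    cases hxi : x i
    · rfl
    · exact absurd (Finset.mem_filter.2 ⟨Finset.mem_univ _, hi, hxi⟩) hi'
  ext j
  rw [Finset.mem_insert]
  unfold adr flip
  rw [Finset.mem_filter, Finset.mem_filter]
  by_cases hj : j = i
  · subst hj
    rw [Function.update_self, hxi]
    simp [hi]
  · rw [Function.update_of_ne hj]
    simp [hj]

theorem adr_flip_out {n k : ℕ} {x : Cube n} {i : Fin n} (hi : ¬ (i : ℕ) < 2 * k) :
    adr k (flip x i) = adr k x := by
  ext j
  unfold adr flip
  rw [Finset.mem_filter, Finset.mem_filter]
  by_cases hj : j = i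
  · subst hj
    simp [hi]
  · rw [Function.update_of_ne hj]

theorem card_addr {n k : ℕ} (h : 2 * k ≤ n) :
    (Finset.univ.filter fun i : Fin n => (i : ℕ) < 2 * k).card = 2 * k := by
  have h1 : (Finset.univ.filter fun i : Fin n => (i : ℕ) < 2 * k) =
      (Finset.univ : Finset (Fin (2 * k))).map (Fin.castLEEmb h) := by
    ext i
    rw [Finset.mem_filter, Finset.mem_map]
    constructor
    · rintro ⟨-, hi⟩
      exact ⟨⟨i, hi⟩, Finset.mem_univ _, rfl⟩
    · rintro ⟨j, -, rfl⟩
      exact ⟨Finset.mem_univ _, j.2⟩
  rw [h1, Finset.card_map, Finset.card_univ, Fintype.card_fin]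

theorem mid_sens {n k : ℕ} (hn : 2 * k ≤ n) (T : Finset (Finset (Fin n))) (x : Cube n) :
    sensAt (mid k T) x ≤ k + 1 := by
  classical
  have hU := card_addr hn
  set U := Finset.univ.filter fun i : Fin n => (i : ℕ) < 2 * k with hUdef
  have haU : adr k x ⊆ U := by
    intro i hi
    unfold adr at hi
    rw [Finset.mem_filter] at hi
    rw [hUdef, Finset.mem_filter]
    exact ⟨Finset.mem_univ _, hi.2.1⟩
  unfold sensAt
  rcases lt_or_ge k (adr k x).card with h1 | h1
  · -- the value is `true`: only directions downwards
    have hval : mid k T x = true := by
      unfold mid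
      rw [decide_eq_true_eq]
      exact Or.inl h1
    rcases lt_or_ge (k + 1) (adr k x).card with h2 | h2
    · have h3 : (Finset.univ.filter fun i => mid k T (flip x i) ≠ mid k T x) = ∅ := by
        rw [Finset.filter_eq_empty_iff]
        intro i _ hne
        apply hne
        rw [hval]
        unfold mid
        rw [decide_eq_true_eq]
        left
        by_cases hi : i ∈ adr k x
        · rw [adr_flip_mem hi, Finset.card_erase_of_mem hi]
          omega
        · by_cases hi2 : (i : ℕ) < 2 * k
          · rw [adr_flip_not hi2 hi, Finset.card_insert_of_notMem hi]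
            omega
          · rw [adr_flip_out hi2]
            omega
      rw [h3, Finset.card_empty]
      omega
    · have h3 : (Finset.univ.filter fun i => mid k T (flip x i) ≠ mid k T x) ⊆ adr k x := by
        intro i hi
        rw [Finset.mem_filter] at hi
        by_contra hi1
        apply hi.2
        rw [hval]
        unfold mid
        rw [decide_eq_true_eq]
        left
        by_cases hi2 : (i : ℕ) < 2 * k
        · rw [adr_flip_not hi2 hi1, Finset.card_insert_of_notMem hi1]
          omega
        · rw [adr_flip_out hi2]
          exact h1
      exact (Finset.card_le_card h3).trans h2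
  · rcases lt_or_eq_of_le h1 with h2 | h2
    · -- below the middle layer
      have hval : mid k T x = false := by
        unfold mid
        rw [decide_eq_false_iff_not]
        omega
      rcases lt_or_ge ((adr k x).card + 1) k with h4 | h4
      · have h3 : (Finset.univ.filter fun i => mid k T (flip x i) ≠ mid k T x) = ∅ := by
          rw [Finset.filter_eq_empty_iff]
          intro i _ hne
          apply hne
          rw [hval]
          unfold mid
          rw [decide_eq_false_iff_not]
          have h5 : (adr k (flip x i)).card ≤ (adr k x).card + 1 := by
            by_cases hi : i ∈ adr k x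
            · rw [adr_flip_mem hi, Finset.card_erase_of_mem hi]
              omega
            · by_cases hi2 : (i : ℕ) < 2 * k
              · rw [adr_flip_not hi2 hi, Finset.card_insert_of_notMem hi]
              · rw [adr_flip_out hi2]
                omega
          omega
        rw [h3, Finset.card_empty]
        omega
      · have h3 : (Finset.univ.filter fun i => mid k T (flip x i) ≠ mid k T x) ⊆ U \ adr k x := by
          intro i hi
          rw [Finset.mem_filter] at hi
          rw [Finset.mem_sdiff]
          by_contra hcon
          apply hi.2
          rw [hval]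
          unfold mid
          rw [decide_eq_false_iff_not]
          by_cases hi1 : i ∈ adr k x
          · rw [adr_flip_mem hi1, Finset.card_erase_of_mem hi1]
            omega
          · have hi2 : ¬ (i : ℕ) < 2 * k := by
              intro h
              exact hcon ⟨by rw [hUdef, Finset.mem_filter]; exact ⟨Finset.mem_univ _, h⟩, hi1⟩
            rw [adr_flip_out hi2]
            omega
        have h5 := Finset.card_le_card h3
        rw [Finset.card_sdiff_of_subset haU, hU] at h5
        omega
    · -- on the middle layer
      by_cases hT : adr k x ∈ T
      · have hval : mid k T x = true := by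
          unfold mid
          rw [decide_eq_true_eq]
          exact Or.inr ⟨h2, hT⟩
        have h3 : (Finset.univ.filter fun i => mid k T (flip x i) ≠ mid k T x) ⊆ adr k x := by
          intro i hi
          rw [Finset.mem_filter] at hi
          by_contra hi1
          apply hi.2
          rw [hval]
          unfold mid
          rw [decide_eq_true_eq]
          by_cases hi2 : (i : ℕ) < 2 * k
          · left
            rw [adr_flip_not hi2 hi1, Finset.card_insert_of_notMem hi1]
            omega
          · right
            rw [adr_flip_out hi2]
            exact ⟨h2, hT⟩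
        have := Finset.card_le_card h3
        omega
      · have hval : mid k T x = false := by
          unfold mid
          rw [decide_eq_false_iff_not]
          rintro (h | h)
          · omega
          · exact hT h.2
        have h3 : (Finset.univ.filter fun i => mid k T (flip x i) ≠ mid k T x) ⊆ U \ adr k x := by
          intro i hi
          rw [Finset.mem_filter] at hi
          rw [Finset.mem_sdiff]
          by_contra hcon
          apply hi.2
          rw [hval]
          unfold mid
          rw [decide_eq_false_iff_not]
          by_cases hi1 : i ∈ adr k x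
          · have h6 : 0 < (adr k x).card := Finset.card_pos.2 ⟨i, hi1⟩
            rw [adr_flip_mem hi1, Finset.card_erase_of_mem hi1]
            omega
          · have hi2 : ¬ (i : ℕ) < 2 * k := by
              intro h
              exact hcon ⟨by rw [hUdef, Finset.mem_filter]; exact ⟨Finset.mem_univ _, h⟩, hi1⟩
            rw [adr_flip_out hi2]
            rintro (h | h)
            · omega
            · exact hT h.2
        have h5 := Finset.card_le_card h3
        rw [Finset.card_sdiff_of_subset haU, hU] at h5
        omega

/-- the lower bound -/
theorem mono_lower {n k : ℕ} (hn : 2 * k ≤ n) :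
    2 ^ (k.centralBinom) ≤ {f : Cube n → Bool | Monotone f ∧ ∀ x, sensAt f x ≤ k + 1}.ncard := by
  classical
  set U := Finset.univ.filter fun i : Fin n => (i : ℕ) < 2 * k with hUdef
  have hU : U.card = 2 * k := card_addr hn
  have h1 : (U.powersetCard k).powerset.card = 2 ^ k.centralBinom := by
    rw [Finset.card_powerset, Finset.card_powersetCard, hU, Nat.centralBinom]
  rw [← h1, ← Set.ncard_coe_finset]
  refine Set.ncard_le_ncard_of_injOn (fun T => (mid k T : Cube n → Bool)) ?_ ?_ (Set.toFinite _)
  · intro T _
    exact ⟨mid_mono T, mid_sens hn T⟩
  · intro T hT T' hT' heq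
    rw [Finset.mem_coe, Finset.mem_powerset] at hT hT'
    have key : ∀ T T' : Finset (Finset (Fin n)), T ⊆ U.powersetCard k →
        (mid k T : Cube n → Bool) = mid k T' → T ⊆ T' := by
      intro T T' hT heq a ha
      have h2 := Finset.mem_powersetCard.1 (hT ha)
      let x : Cube n := fun i => decide (i ∈ a)
      have h3 : adr k x = a := by
        ext i
        unfold adr
        rw [Finset.mem_filter]
        constructor
        · rintro ⟨-, -, h⟩
          simpa [x] using h
        · intro hi
          have := h2.1 hi
          rw [hUdef, Finset.mem_filter] at this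
          exact ⟨Finset.mem_univ _, this.2, by simp [x, hi]⟩
      have h4 : mid k T x = true := by
        unfold mid
        rw [decide_eq_true_eq, h3]
        exact Or.inr ⟨h2.2, ha⟩
      have h5 : mid k T' x = true := by rw [← heq]; exact h4
      unfold mid at h5
      rw [decide_eq_true_eq, h3] at h5
      rcases h5 with h5 | h5
      · omega
      · exact h5.2
    exact Finset.Subset.antisymm (key T T' hT heq) (key T' T hT' heq.symm)

end Pool.Agent.LSC
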