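import Pool.Agent.LSC.Basic

set_option autoImplicit false

/-!
# Thick sets are large
-/

namespace Pool.Agent.LSC

theorem flip_cons_zero {n : ℕ} (b : Bool) (y : Cube n) :
    flip (Fin.cons b y : Cube (n + 1)) 0 = Fin.cons (!b) y := by
  unfold flip
  rw [Fin.cons_zero, Fin.update_cons_zero]

theorem flip_cons_succ {n : ℕ} (b : Bool) (y : Cube n) (i : Fin n) :
    flip (Fin.cons b y : Cube (n + 1)) i.succ = Fin.cons b (flip y i) := by
  unfold flip
  rw [Fin.cons_succ, ← Fin.cons_update]

/-- A nonempty set of vertices such that at most `t` directions lead out of it at each of its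
points has at least `2 ^ (n - t)` elements. -/
theorem thick : ∀ (n t : ℕ) (A : Finset (Cube n)), A.Nonempty →
    (∀ x ∈ A, (Finset.univ.filter fun i => flip x i ∉ A).card ≤ t) → 2 ^ n ≤ 2 ^ t * A.card := by
  classical
  intro n
  induction n with
  | zero =>
    intro t A hA _
    have h1 : 1 ≤ A.card := Finset.card_pos.2 hA
    have h2 : 1 ≤ 2 ^ t := Nat.one_le_two_pow
    calc 2 ^ 0 = 1 * 1 := rfl
      _ ≤ 2 ^ t * A.card := Nat.mul_le_mul h2 h1
  | succ n ih =>
    intro t A hA hout
    let B : Bool → Finset (Cube n) := fun b => Finset.univ.filter fun y => (Fin.cons b y : Cube (n + 1)) ∈ A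
    have hcard : A.card = (B false).card + (B true).card := by
      have h1 : A = (B false).image (fun y => (Fin.cons false y : Cube (n + 1))) ∪
          (B true).image (fun y => (Fin.cons true y : Cube (n + 1))) := by
        ext x
        simp only [B, Finset.mem_union, Finset.mem_image, Finset.mem_filter, Finset.mem_univ,
          true_and]
        constructor
        · intro hx
          have h2 : (Fin.cons (x 0) (Fin.tail x) : Cube (n + 1)) = x := Fin.cons_self_tail x
          cases h0 : x 0
          · left
            refine ⟨Fin.tail x, ?_, ?_⟩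
            · rw [← h0, h2]; exact hx
            · rw [← h0, h2]
          · right
            refine ⟨Fin.tail x, ?_, ?_⟩
            · rw [← h0, h2]; exact hx
            · rw [← h0, h2]
        · rintro (⟨y, hy, rfl⟩ | ⟨y, hy, rfl⟩) <;> exact hy
      have hinj : ∀ b : Bool, Function.Injective (fun y : Cube n => (Fin.cons b y : Cube (n + 1))) :=
        fun b y z h => (Fin.cons_inj.1 h).2
      conv_lhs => rw [h1]
      rw [Finset.card_union_of_disjoint, Finset.card_image_of_injective _ (hinj false),
        Finset.card_image_of_injective _ (hinj true)]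
      rw [Finset.disjoint_left]
      intro x hx hx'
      rw [Finset.mem_image] at hx hx'
      obtain ⟨y, -, rfl⟩ := hx
      obtain ⟨z, -, h⟩ := hx'
      have := congrFun h 0
      simp at this
    have hdir : ∀ (b : Bool) (y : Cube n), y ∈ B b →
        (Finset.univ.filter fun i => flip y i ∉ B b).card + (if y ∈ B (!b) then 0 else 1) ≤ t := by
      intro b y hy
      have hyA : (Fin.cons b y : Cube (n + 1)) ∈ A := (Finset.mem_filter.1 hy).2
      refine le_trans ?_ (hout _ hyA)
      have h1 : ((Finset.univ.filter fun i => flip y i ∉ B b).map (Fin.succEmb n)) ∪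
          (if y ∈ B (!b) then ∅ else {0}) ⊆
          (Finset.univ.filter fun i => flip (Fin.cons b y : Cube (n + 1)) i ∉ A) := by
        intro i hi
        rw [Finset.mem_union] at hi
        rw [Finset.mem_filter]
        refine ⟨Finset.mem_univ _, ?_⟩
        rcases hi with hi | hi
        · rw [Finset.mem_map] at hi
          obtain ⟨j, hj, rfl⟩ := hi
          rw [Finset.mem_filter] at hj
          intro hcon
          apply hj.2
          have h2 : (Fin.succEmb n) j = j.succ := rfl
          rw [h2, flip_cons_succ] at hcon
          exact Finset.mem_filter.2 ⟨Finset.mem_univ _, hcon⟩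
        · split_ifs at hi with h2
          · simp at hi
          · rw [Finset.mem_singleton] at hi
            subst hi
            rw [flip_cons_zero]
            intro hcon
            exact h2 (Finset.mem_filter.2 ⟨Finset.mem_univ _, hcon⟩)
      have h2 := Finset.card_le_card h1
      rw [Finset.card_union_of_disjoint, Finset.card_map] at h2
      · refine le_trans ?_ h2
        refine Nat.add_le_add_left ?_ _
        split_ifs <;> simp
      · rw [Finset.disjoint_left]
        intro i hi hi'
        rw [Finset.mem_map] at hi
        obtain ⟨j, -, rfl⟩ := hi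
        split_ifs at hi' with h3
        · simp at hi'
        · rw [Finset.mem_singleton] at hi'
          exact Fin.succ_ne_zero j hi'
    by_cases hboth : (B false).Nonempty ∧ (B true).Nonempty
    · have h0 := ih t (B false) hboth.1 fun y hy => (Nat.le_add_right _ _).trans (hdir false y hy)
      have h1 := ih t (B true) hboth.2 fun y hy => (Nat.le_add_right _ _).trans (hdir true y hy)
      rw [hcard, pow_succ, Nat.mul_add]
      omega
    · -- one of the halves is empty
      have hex : ∃ b : Bool, (B b).Nonempty ∧ B (!b) = ∅ := by
        rcases Finset.eq_empty_or_nonempty (B false) with h0 | h0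
        · refine ⟨true, ?_, h0⟩
          rw [← Finset.card_pos]
          have h2 : 0 < A.card := Finset.card_pos.2 hA
          rw [hcard, h0, Finset.card_empty, zero_add] at h2
          exact h2
        · refine ⟨false, h0, ?_⟩
          rcases Finset.eq_empty_or_nonempty (B true) with h1 | h1
          · exact h1
          · exact absurd ⟨h0, h1⟩ hboth
      obtain ⟨b, hb, hb'⟩ := hex
      have ht : 1 ≤ t := by
        obtain ⟨y, hy⟩ := hb
        have := hdir b y hy
        rw [hb', if_neg (Finset.notMem_empty _)] at this
        omega
      have h1 := ih (t - 1) (B b) hb fun y hy => by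
        have := hdir b y hy
        rw [hb', if_neg (Finset.notMem_empty _)] at this
        omega
      have h2 : (B b).card ≤ A.card := by
        rw [hcard]
        cases b
        · exact Nat.le_add_right _ _
        · exact Nat.le_add_left _ _
      obtain ⟨t', rfl⟩ : ∃ t', t = t' + 1 := ⟨t - 1, by omega⟩
      rw [Nat.add_sub_cancel] at h1
      calc 2 ^ (n + 1) = 2 * 2 ^ n := by ring
        _ ≤ 2 * (2 ^ t' * (B b).card) := Nat.mul_le_mul_left _ h1
        _ ≤ 2 * (2 ^ t' * A.card) := Nat.mul_le_mul_left _ (Nat.mul_le_mul_left _ h2)
        _ = 2 ^ (t' + 1) * A.card := by ring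

end Pool.Agent.LSC
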