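import Pool.Agent.LSC.Ends

set_option autoImplicit false

/-!
# The general upper bound
-/

namespace Pool.Agent.LSC

theorem low_card (n s : ℕ) :
    {f : Cube n → Bool | ∀ x, sensAt f x ≤ s}.ncard ≤
      2 ^ n * (2 * (n + 1) ^ (2 * s) + 1) ^ ((2 * s + 1) ^ (2 * s)) := by
  classical
  set A := (2 * s + 1) ^ (2 * s) with hA
  let B := {S : Finset (Fin n) // S.card ≤ 2 * s}
  have hB : Fintype.card B ≤ (n + 1) ^ (2 * s) := by
    have h1 := card_small (α := Fin n) (2 * s)
    rw [Fintype.card_fin] at h1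
    rw [Fintype.card_subtype]
    exact h1
  have hex : ∀ f : Cube n → Bool, ∃ (c : Cube n) (E : Finset (Finset (Fin n))),
      (∀ x, sensAt f x ≤ s) → (∀ S, S ∈ E ↔ S.card ≤ 2 * s ∧ End f c S) ∧ E.card ≤ A := by
    intro f
    by_cases hf : ∀ x, sensAt f x ≤ s
    · obtain ⟨c, E, h1, h2⟩ := exists_center hf (2 * s)
      exact ⟨c, E, fun _ => ⟨h1, h2⟩⟩
    · exact ⟨fun _ => false, ∅, fun h => absurd h hf⟩
  choose c E hcE using hex
  let code : (Cube n → Bool) → Cube n × Finset (B × Bool) := fun f =>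
    (c f, Finset.univ.filter fun p : B × Bool => p.1.1 ∈ E f ∧ f (tog (c f) p.1.1) = p.2)
  rw [Set.ncard_eq_toFinset_card']
  have hmaps : ∀ f ∈ {f : Cube n → Bool | ∀ x, sensAt f x ≤ s}.toFinset,
      code f ∈ (Finset.univ : Finset (Cube n)) ×ˢ
        (Finset.univ.filter fun t : Finset (B × Bool) => t.card ≤ A) := by
    intro f hf
    rw [Set.mem_toFinset, Set.mem_ofPred_eq] at hf
    rw [Finset.mem_product, Finset.mem_filter]
    refine ⟨Finset.mem_univ _, Finset.mem_univ _, ?_⟩
    refine le_trans ?_ (hcE f hf).2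
    refine Finset.card_le_card_of_injOn (fun p => p.1.1) ?_ ?_
    · intro p hp
      exact (Finset.mem_filter.1 (Finset.mem_coe.1 hp)).2.1
    · intro p hp q hq hpq
      have hp' := (Finset.mem_filter.1 (Finset.mem_coe.1 hp)).2
      have hq' := (Finset.mem_filter.1 (Finset.mem_coe.1 hq)).2
      have hpq' : p.1.1 = q.1.1 := hpq
      refine Prod.ext (Subtype.ext hpq') ?_
      rw [← hp'.2, ← hq'.2, hpq']
  have hinj : Set.InjOn code {f : Cube n → Bool | ∀ x, sensAt f x ≤ s}.toFinset := by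
    intro f hf g hg hfg
    rw [Finset.mem_coe, Set.mem_toFinset, Set.mem_ofPred_eq] at hf hg
    have hc : c f = c g := congrArg Prod.fst hfg
    have ht := congrArg Prod.snd hfg
    simp only [code] at ht
    have hmem : ∀ S : Finset (Fin n), S.card ≤ 2 * s → S ∈ E f →
        S ∈ E g ∧ f (tog (c f) S) = g (tog (c g) S) := by
      intro S hS hSE
      have h1 : ((⟨S, hS⟩ : B), f (tog (c f) S)) ∈
          Finset.univ.filter fun p : B × Bool => p.1.1 ∈ E f ∧ f (tog (c f) p.1.1) = p.2 := by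
        simp [hSE]
      rw [ht, Finset.mem_filter] at h1
      exact ⟨h1.2.1, h1.2.2.symm⟩
    have hmem' : ∀ S : Finset (Fin n), S.card ≤ 2 * s → S ∈ E g → S ∈ E f := by
      intro S hS hSE
      have h1 : ((⟨S, hS⟩ : B), g (tog (c g) S)) ∈
          Finset.univ.filter fun p : B × Bool => p.1.1 ∈ E g ∧ g (tog (c g) p.1.1) = p.2 := by
        simp [hSE]
      rw [← ht, Finset.mem_filter] at h1
      exact h1.2.1
    refine eq_of_ball hf hg (c f) fun Z hZ => ?_
    -- a maximal end point below `Z`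
    set P := (E f).filter fun T => T ⊆ Z with hP
    have hPne : P.Nonempty := by
      refine ⟨∅, ?_⟩
      rw [hP, Finset.mem_filter]
      exact ⟨((hcE f hf).1 ∅).2 ⟨by simp, End.base⟩, Finset.empty_subset _⟩
    obtain ⟨T, hTP, hTmax⟩ := Finset.exists_max_image P Finset.card hPne
    rw [hP, Finset.mem_filter] at hTP
    obtain ⟨hTE, hTZ⟩ := hTP
    have hTf := (((hcE f hf).1 T).1 hTE)
    have hTg := hmem T hTf.1 hTE
    have hTg' := (((hcE g hg).1 T).1 hTg.1)
    have h1 : f (tog (c f) Z) = f (tog (c f) T) := by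
      refine hTf.2.decode hTZ fun T' hT' hTT' hT'Z => ?_
      have h2 : T'.card ≤ 2 * s := (Finset.card_le_card hT'Z).trans hZ
      have h3 : T' ∈ P := by
        rw [hP, Finset.mem_filter]
        exact ⟨((hcE f hf).1 T').2 ⟨h2, hT'⟩, hT'Z⟩
      exact absurd (hTmax T' h3) (not_le.2 (Finset.card_lt_card hTT'))
    have h2 : g (tog (c g) Z) = g (tog (c g) T) := by
      refine hTg'.2.decode hTZ fun T' hT' hTT' hT'Z => ?_
      have h2 : T'.card ≤ 2 * s := (Finset.card_le_card hT'Z).trans hZ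
      have h3 : T' ∈ P := by
        rw [hP, Finset.mem_filter]
        exact ⟨hmem' T' h2 (((hcE g hg).1 T').2 ⟨h2, hT'⟩), hT'Z⟩
      exact absurd (hTmax T' h3) (not_le.2 (Finset.card_lt_card hTT'))
    rw [h1, hTg.2, ← h2, hc]
  calc _ ≤ _ := Finset.card_le_card_of_injOn code hmaps hinj
    _ = 2 ^ n * (Finset.univ.filter fun t : Finset (B × Bool) => t.card ≤ A).card := by
      rw [Finset.card_product, Finset.card_univ, Fintype.card_fun, Fintype.card_bool,
        Fintype.card_fin]
    _ ≤ 2 ^ n * (2 * (n + 1) ^ (2 * s) + 1) ^ A := by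
      refine Nat.mul_le_mul_left _ ?_
      refine (card_small (α := B × Bool) A).trans ?_
      refine Nat.pow_le_pow_left ?_ _
      rw [Fintype.card_prod, Fintype.card_bool]
      omega

end Pool.Agent.LSC
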