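import Pool.Agent.LSC.Upper

set_option autoImplicit false

/-!
# MP_4c73d6_lc: log |F(2 log n, n)| is at most n ^ (5 log log n)
-/

namespace Pool.Agent.LSC.UpperLogLog

open Pool.Agent.LSC

theorem low_natCast (n s : ℕ) : Low n (s : ℝ) = {f : Cube n → Bool | ∀ x, sensAt f x ≤ s} := by
  ext f
  simp [Low]

theorem low_floor (n : ℕ) {r : ℝ} (hr : 0 ≤ r) :
    Low n r = {f : Cube n → Bool | ∀ x, sensAt f x ≤ ⌊r⌋₊} := by
  ext f
  simp only [Low, Set.mem_ofPred_eq]
  refine forall_congr' fun x => ?_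
  rw [Nat.le_floor_iff hr]

theorem log_bound (n s : ℕ) :
    Real.logb 2 ({f : Cube n → Bool | ∀ x, sensAt f x ≤ s}.ncard : ℝ) ≤
      n + ((2 * s + 1 : ℕ) : ℝ) ^ (2 * s) * Real.logb 2 (2 * ((n : ℝ) + 1) ^ (2 * s) + 1) := by
  have h1 := low_card n s
  have hpos : (0 : ℝ) < 2 * ((n : ℝ) + 1) ^ (2 * s) + 1 := by positivity
  have hone : (1 : ℝ) ≤ 2 * ((n : ℝ) + 1) ^ (2 * s) + 1 := by
    have : (0 : ℝ) ≤ 2 * ((n : ℝ) + 1) ^ (2 * s) := by positivity
    linarith
  rcases Nat.eq_zero_or_pos ({f : Cube n → Bool | ∀ x, sensAt f x ≤ s}.ncard) with h0 | h0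
  · rw [h0, Nat.cast_zero, Real.logb_zero]
    have : 0 ≤ Real.logb 2 (2 * ((n : ℝ) + 1) ^ (2 * s) + 1) := Real.logb_nonneg (by norm_num) hone
    positivity
  · have h2 : ({f : Cube n → Bool | ∀ x, sensAt f x ≤ s}.ncard : ℝ) ≤
        2 ^ n * (2 * ((n : ℝ) + 1) ^ (2 * s) + 1) ^ ((2 * s + 1) ^ (2 * s)) := by
      exact_mod_cast h1
    calc Real.logb 2 ({f : Cube n → Bool | ∀ x, sensAt f x ≤ s}.ncard : ℝ)
        ≤ Real.logb 2 (2 ^ n * (2 * ((n : ℝ) + 1) ^ (2 * s) + 1) ^ ((2 * s + 1) ^ (2 * s))) :=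
          Real.logb_le_logb_of_le (by norm_num) (by exact_mod_cast h0) h2
      _ = n + ((2 * s + 1 : ℕ) : ℝ) ^ (2 * s) *
          Real.logb 2 (2 * ((n : ℝ) + 1) ^ (2 * s) + 1) := by
        rw [Real.logb_mul (by positivity) (by positivity), Real.logb_pow, Real.logb_pow]
        rw [Real.logb_self_eq_one (by norm_num), mul_one]
        push_cast
        ring

/-- For all `n`, `s` the number of Boolean functions on `n` variables with sensitivity at most `s`
is at most `2 ^ n (2 (n + 1) ^ (2 s) + 1) ^ ((2 s + 1) ^ (2 s))`; hence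
`log |F(2 log n, n)| ≤ n ^ (5 log log n)` for all large `n`. -/
theorem result :
    (∀ n s : ℕ, (Low n (s : ℝ)).ncard ≤
      2 ^ n * (2 * (n + 1) ^ (2 * s) + 1) ^ ((2 * s + 1) ^ (2 * s))) ∧
    ∃ n₀ : ℕ, ∀ n : ℕ, n₀ ≤ n →
      Real.logb 2 ((Low n (2 * Real.logb 2 n)).ncard : ℝ) ≤
        (n : ℝ) ^ (5 * Real.logb 2 (Real.logb 2 n)) := by
  refine ⟨fun n s => by rw [low_natCast]; exact low_card n s, 2 ^ 50000, fun n hn => ?_⟩
  set L := Real.logb 2 (n : ℝ) with hL
  have hn1 : (2 : ℝ) ^ (50000 : ℝ) ≤ n := by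
    have h1 : ((2 ^ 50000 : ℕ) : ℝ) ≤ n := by exact_mod_cast hn
    have h2 : (2 : ℝ) ^ (50000 : ℝ) = ((2 ^ 50000 : ℕ) : ℝ) := by
      rw [Nat.cast_pow, ← Real.rpow_natCast]
      norm_num
    rw [h2]; exact h1
  have hn0 : (0 : ℝ) < n := lt_of_lt_of_le (by positivity) hn1
  have hL1 : 50000 ≤ L := by
    rw [hL, Real.le_logb_iff_rpow_le (by norm_num) hn0]
    exact hn1
  have h1n : (1 : ℝ) ≤ n := le_trans (Real.one_le_rpow (by norm_num) (by norm_num)) hn1
  clear hn hn1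
  have hL0 : 0 < L := by linarith
  have hnL : (n : ℝ) = (2 : ℝ) ^ L := by
    rw [hL, Real.rpow_logb (by norm_num) (by norm_num) hn0]
  have hs := Nat.floor_le (a := 2 * L) (by positivity)
  set s := ⌊2 * L⌋₊ with hsdef
  rw [low_floor n (by positivity : (0 : ℝ) ≤ 2 * L), ← hsdef]
  refine (log_bound n s).trans ?_
  -- the right-hand side
  have hR : (n : ℝ) ^ (5 * Real.logb 2 L) = L ^ (5 * L) := by
    have h1 : L = (2 : ℝ) ^ Real.logb 2 L := by
      rw [Real.rpow_logb (by norm_num) (by norm_num) hL0]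
    rw [hnL, ← Real.rpow_mul (by norm_num)]
    conv_rhs => rw [h1]
    rw [← Real.rpow_mul (by norm_num)]
    congr 1
    rw [← h1]
    ring
  rw [hR]
  -- the factors of the left-hand side
  have hA : (((2 * s + 1 : ℕ) : ℝ)) ^ (2 * s) ≤ (5 * L) ^ (4 * L) := by
    rw [← Real.rpow_natCast]
    have h1 : ((2 * s + 1 : ℕ) : ℝ) ≤ 5 * L := by push_cast; linarith
    have h2 : ((2 * s : ℕ) : ℝ) ≤ 4 * L := by push_cast; linarith
    calc ((2 * s + 1 : ℕ) : ℝ) ^ ((2 * s : ℕ) : ℝ) ≤ (5 * L) ^ ((2 * s : ℕ) : ℝ) :=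
          Real.rpow_le_rpow (by positivity) h1 (by positivity)
      _ ≤ (5 * L) ^ (4 * L) := Real.rpow_le_rpow_of_exponent_le (by linarith) h2
  have hB : Real.logb 2 (2 * ((n : ℝ) + 1) ^ (2 * s) + 1) ≤ 36 ^ L := by
    have h1 : (n : ℝ) + 1 ≤ 2 ^ (L + 1) := by
      rw [Real.rpow_add (by norm_num), ← hnL, Real.rpow_one]
      linarith
    have h2 : ((n : ℝ) + 1) ^ (2 * s) ≤ (2 : ℝ) ^ ((L + 1) * (4 * L)) := by
      calc ((n : ℝ) + 1) ^ (2 * s) ≤ ((2 : ℝ) ^ (L + 1)) ^ (2 * s) :=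
            pow_le_pow_left₀ (by positivity) h1 _
        _ = (2 : ℝ) ^ ((L + 1) * ((2 * s : ℕ) : ℝ)) := by
            rw [← Real.rpow_natCast, ← Real.rpow_mul (by norm_num)]
        _ ≤ _ := by
            refine Real.rpow_le_rpow_of_exponent_le (by norm_num) ?_
            refine mul_le_mul_of_nonneg_left ?_ (by positivity)
            push_cast; linarith
    have h3 : 2 * ((n : ℝ) + 1) ^ (2 * s) + 1 ≤ (2 : ℝ) ^ ((L + 1) * (4 * L) + 2) := by
      rw [Real.rpow_add (by norm_num)]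
      have h4 : (1 : ℝ) ≤ (2 : ℝ) ^ ((L + 1) * (4 * L)) :=
        Real.one_le_rpow (by norm_num) (by positivity)
      have h5 : (2 : ℝ) ^ (2 : ℝ) = 4 := by norm_num
      rw [h5]
      linarith
    calc Real.logb 2 (2 * ((n : ℝ) + 1) ^ (2 * s) + 1)
        ≤ Real.logb 2 ((2 : ℝ) ^ ((L + 1) * (4 * L) + 2)) :=
          Real.logb_le_logb_of_le (by norm_num) (by positivity) h3
      _ = (L + 1) * (4 * L) + 2 := Real.logb_rpow (by norm_num) (by norm_num)
      _ ≤ (6 : ℝ) ^ L * 6 ^ L := by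
          have h6 : 2 * L + 2 ≤ (6 : ℝ) ^ L := by
            have h7 : L + 1 ≤ Real.exp L := Real.add_one_le_exp L
            have h8 : Real.exp L ≤ (3 : ℝ) ^ L := by
              rw [← Real.exp_one_rpow]
              exact Real.rpow_le_rpow (Real.exp_pos 1).le (Real.exp_one_lt_d9.le.trans (by norm_num))
                hL0.le
            have h9 : (2 : ℝ) ≤ 2 ^ L := by
              calc (2 : ℝ) = 2 ^ (1 : ℝ) := (Real.rpow_one 2).symm
                _ ≤ 2 ^ L := Real.rpow_le_rpow_of_exponent_le (by norm_num) (by linarith)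
            have h10 : (6 : ℝ) ^ L = 2 ^ L * 3 ^ L := by
              rw [← Real.mul_rpow (by norm_num) (by norm_num)]; norm_num
            rw [h10]
            have h11 : (0 : ℝ) ≤ (3 : ℝ) ^ L := by positivity
            nlinarith
          nlinarith
      _ = 36 ^ L := by
          rw [← Real.mul_rpow (by norm_num) (by norm_num)]; norm_num
  have hC : (5 * L) ^ (4 * L) = 625 ^ L * L ^ (4 * L) := by
    rw [Real.mul_rpow (by norm_num) hL0.le, Real.rpow_mul (by norm_num)]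
    norm_num
  have hL4 : (1 : ℝ) ≤ L ^ (4 * L) := Real.one_le_rpow (by linarith) (by positivity)
  calc (n : ℝ) + ((2 * s + 1 : ℕ) : ℝ) ^ (2 * s) *
        Real.logb 2 (2 * ((n : ℝ) + 1) ^ (2 * s) + 1)
      ≤ 2 ^ L + (625 ^ L * L ^ (4 * L)) * 36 ^ L := by
        have h1 : 0 ≤ Real.logb 2 (2 * ((n : ℝ) + 1) ^ (2 * s) + 1) := by
          refine Real.logb_nonneg (by norm_num) ?_
          have : (0 : ℝ) ≤ 2 * ((n : ℝ) + 1) ^ (2 * s) := by positivity
          linarith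
        rw [← hC]
        refine add_le_add hnL.le ?_
        exact mul_le_mul hA hB h1 (by positivity)
    _ ≤ 22500 ^ L * L ^ (4 * L) + 22500 ^ L * L ^ (4 * L) := by
        have h1 : (2 : ℝ) ^ L ≤ 22500 ^ L := Real.rpow_le_rpow (by norm_num) (by norm_num) hL0.le
        have h2 : (625 : ℝ) ^ L * 36 ^ L = 22500 ^ L := by
          rw [← Real.mul_rpow (by norm_num) (by norm_num)]; norm_num
        have h3 : (625 ^ L * L ^ (4 * L)) * 36 ^ L = 22500 ^ L * L ^ (4 * L) := by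
          rw [← h2]; ring
        rw [h3]
        have h4 : (0 : ℝ) ≤ (22500 : ℝ) ^ L := by positivity
        nlinarith
    _ ≤ 45000 ^ L * L ^ (4 * L) := by
        have h1 : (45000 : ℝ) ^ L = 2 ^ L * 22500 ^ L := by
          rw [← Real.mul_rpow (by norm_num) (by norm_num)]; norm_num
        have h2 : (2 : ℝ) ≤ 2 ^ L := by
          calc (2 : ℝ) = 2 ^ (1 : ℝ) := (Real.rpow_one 2).symm
            _ ≤ 2 ^ L := Real.rpow_le_rpow_of_exponent_le (by norm_num) (by linarith)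
        rw [h1]
        have h3 : (0 : ℝ) ≤ (22500 : ℝ) ^ L * L ^ (4 * L) := by positivity
        nlinarith
    _ ≤ L ^ L * L ^ (4 * L) := by
        refine mul_le_mul_of_nonneg_right ?_ (by positivity)
        exact Real.rpow_le_rpow (by norm_num) (by linarith) hL0.le
    _ = L ^ (5 * L) := by
        rw [← Real.rpow_add hL0]
        congr 1
        ring

end Pool.Agent.LSC.UpperLogLog
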